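import Mathlib
import Pool.Agent.H529.G.Final
import Pool.Agent.H921.D44.SieveCounts44
import Pool.Agent.H529.R.Win
import Pool.Agent.H529.MP.Three
import Pool.Agent.H529.MP.FourD

/-!
# Two, three, four primes in the windows with at least 44, 2946, 200705 sieve survivors

If at least `44` integers of `(j, j + k]` have no prime factor `≤ k`, that is `h_j (k) ≥ 44`, then for at least
`c X / (log X) ^ 44` of the `x ≤ X` which are congruent to `j` modulo every prime `≤ k` the window `(x, x + k]`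
contains at least two primes; if `h_j (k) ≥ 2946` (`≥ 200705`), then for at least `X ^ (1 - ε)` of these `x` it
contains at least three (four) primes. The certificates are `Pool.Agent.H529.G.cert`,
`Pool.Agent.H529.MP.lhyp3`, `Pool.Agent.H529.MP.lhyp4`.
-/

set_option autoImplicit false

open Finset Filter

namespace Pool.Agent.Results.MP_cbf366_nt.ExplicitSieveCounts

open Classical in
/-- If at least `K` integers of `(j, j + k]` have no prime factor `≤ k` (`h_j (k) ≥ K`), then for every `ε > 0`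
and all large `X` at least `X ^ (1 - ε)` of the `x ≤ X` with `x ≡ j` modulo every prime `≤ k` satisfy
`π (x + k) - π (x) ≥ m`. -/
def ManyPrimes (m K : ℕ) : Prop := ∀ k j : ℕ,
    K ≤ ((Ioc j (j + k)).filter fun n => ∀ p : ℕ, p.Prime → p ≤ k → ¬ p ∣ n).card →
    ∀ ε : ℝ, 0 < ε → ∀ᶠ X : ℝ in atTop, X ^ (1 - ε) ≤
      (Set.ncard {x : ℕ | (x : ℝ) ≤ X ∧ (∀ p : ℕ, p.Prime → p ≤ k → x ≡ j [MOD p]) ∧
        Nat.primeCounting x + m ≤ Nat.primeCounting (x + k)} : ℝ)

open Classical in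
/-- (1) If `h_j (k) ≥ 44`, then for some `c > 0` and all large `X` at least `c X / (log X) ^ 44` of the `x ≤ X` with
`x ≡ j` modulo every prime `≤ k` satisfy `π (x + k) - π (x) ≥ 2`. (2) Three primes if `h_j (k) ≥ 2946`. (3) Four
primes if `h_j (k) ≥ 200705`. -/
theorem result :
    (∀ k j : ℕ, 44 ≤ ((Ioc j (j + k)).filter fun n => ∀ p : ℕ, p.Prime → p ≤ k → ¬ p ∣ n).card →
      ∃ c : ℝ, 0 < c ∧ ∀ᶠ X : ℝ in atTop, c * X / Real.log X ^ 44 ≤
        (Set.ncard {x : ℕ | (x : ℝ) ≤ X ∧ (∀ p : ℕ, p.Prime → p ≤ k → x ≡ j [MOD p]) ∧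
          Nat.primeCounting x + 2 ≤ Nat.primeCounting (x + k)} : ℝ)) ∧
    ManyPrimes 3 2946 ∧ ManyPrimes 4 200705 := by
  refine ⟨fun k j hk => ?_, fun k j hk ε hε => ?_, fun k j hk ε hε => ?_⟩
  · exact Pool.Agent.H921.D44.SieveCounts44.sieveCounts44R Pool.Agent.H529.G.dhl44R k j hk
  · exact Pool.Agent.H529.R.Win.sieveCounts Pool.Agent.H529.MP.lhyp3 k j hk ε hε
  · exact Pool.Agent.H529.R.Win.sieveCounts Pool.Agent.H529.MP.lhyp4 k j hk ε hε

end Pool.Agent.Results.MP_cbf366_nt.ExplicitSieveCounts
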