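import Mathlib
import Pool.Agent.H532.UN.Strict3
import Pool.Agent.H532.RM.Thr

/-!
# The Hardy-Littlewood maximum in the random sieve model, with the exact order of the range

In the model of Banks, Ford and Tao (Large prime gaps and probabilistic models, Invent. Math. 2023)
the primes are replaced by the random set `R` of the integers `n` which are outside the random
residue class `a_p` modulo `p` for all primes `p ≤ z(n)`, `∏_{p ≤ z(n)} (1 - 1/p) ≈ 1 / log n`.

We prove, almost surely, the analogue of Q1 for all `k` at once and with the exact order of the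
uniformity: for `k ≤ c log N` the windows `(x, x + k]`, `N ≤ x ≤ 4 N`, contain exactly the
admissible patterns `S ⊆ {1, …, k}` (those which miss a residue class modulo each prime), each one
exactly (`R ∩ (x, x + k] = x + S`) and at least `N ^ (1 - ε)` times. In particular the maximal number
of elements of `R` in a window of length `k` is `max_m h_m(k)`. On the other hand this maximum is
never attained by a window of length between `(1 + ε) log x` and `x ^ (1 / 20)`.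
-/

open Finset MeasureTheory ProbabilityTheory Filter
open scoped ENNReal Topology

namespace Pool.Agent.Results.MP_cbf366_nt.MaximumInTheRandomSieve

/-- `A p`, `p` prime, are independent random variables and `A p` is uniformly distributed on
`{0, …, p - 1}`. -/
structure RandomClasses {Ω : Type} [MeasurableSpace Ω] (μ : Measure Ω) (A : ℕ → Ω → ℕ) :
    Prop where
  meas : ∀ p, Measurable (A p)
  indep : iIndepFun (fun p : Nat.Primes => A p) μ
  unif : ∀ p : ℕ, p.Prime → ∀ r < p, μ {ω | A p ω = r} = (p : ℝ≥0∞)⁻¹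

/-- `V z = ∏_{p ≤ z} (1 - 1 / p)`. -/
noncomputable def V (z : ℕ) : ℝ := ∏ p ∈ (range (z + 1)).filter Nat.Prime, (1 - 1 / (p : ℝ))

/-- The integers `n` are sieved by the primes up to `z n`; this leaves the density `1 / log n`. -/
structure SievingLimit (z : ℕ → ℕ) : Prop where
  mono : Monotone z
  lim : Tendsto (fun n : ℕ => V (z n) * Real.log n) atTop (𝓝 1)

/-- The sieving limit of Banks, Ford and Tao: the largest `z` with `V z ≥ 1 / log n`. -/
noncomputable def banksFordTao (n : ℕ) : ℕ := sSup {z : ℕ | 1 / Real.log n ≤ V z}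

/-- The random sieve: the integers `n` which are not congruent to `a p` modulo `p`, for all primes
`p ≤ z n`. -/
def sieved (z : ℕ → ℕ) (a : ℕ → ℕ) : Set ℕ :=
  {n | ∀ p : ℕ, p.Prime → p ≤ z n → ¬ n ≡ a p [MOD p]}

/-- `#(R ∩ (x, x + k])`. -/
noncomputable def elements (R : Set ℕ) (x k : ℕ) : ℕ := {n : ℕ | n ∈ R ∧ x < n ∧ n ≤ x + k}.ncard

/-- `h_m(k)`, the number of the integers `n`, `m < n ≤ m + k`, without prime factors `p ≤ k`. -/
def h (m k : ℕ) : ℕ := ((Ioc m (m + k)).filter (fun n => ∀ p ≤ k, p.Prime → ¬ p ∣ n)).card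

/-- `S ⊆ {1, …, k}` and modulo every prime `p ≤ k` the set `S` misses a residue class. -/
def Admissible (k : ℕ) (S : Finset ℕ) : Prop :=
  S ⊆ Ioc 0 k ∧ ∀ p : ℕ, p.Prime → p ≤ k → ∃ c, ∀ i ∈ S, ¬ i ≡ c [MOD p]

/-- `R ∩ (x, x + k] = x + S`. -/
def HasPattern (R : Set ℕ) (k : ℕ) (S : Finset ℕ) (x : ℕ) : Prop :=
  ∀ i, 0 < i → i ≤ k → (x + i ∈ R ↔ i ∈ S)

lemma h_eq (m k : ℕ) : h m k = Pool.Agent.H532.RM.T1 (fun _ => 0) k m k := by
  unfold h Pool.Agent.H532.RM.T1
  congr 1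
  ext n
  rw [Pool.Agent.H532.RM.mem_T1, mem_filter, mem_Ioc]
  constructor
  · rintro ⟨h1, h2⟩
    refine ⟨h1, fun p hp h3 => ?_⟩
    rw [Nat.zero_mod] at h3
    have hp' := Pool.Agent.H532.RM.mem_primesLe.1 hp
    exact h2 p hp'.1 hp'.2 (Nat.dvd_of_mod_eq_zero h3)
  · rintro ⟨h1, h2⟩
    refine ⟨h1, fun p hp hpp h3 => ?_⟩
    have := h2 p (Pool.Agent.H532.RM.mem_primesLe.2 ⟨hp, hpp⟩)
    rw [Nat.zero_mod] at this
    exact this (Nat.mod_eq_zero_of_dvd h3)

lemma max_h_eq (k : ℕ) : ⨆ m, h m k = Pool.Agent.H532.RM.smax k k := by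
  unfold Pool.Agent.H532.RM.smax
  simp only [h_eq]

/-- **The Hardy-Littlewood maximum in the random sieve model.** -/
theorem result :
    -- the model exists
    (∃ μ : Measure (ℕ → ℕ), IsProbabilityMeasure μ ∧ RandomClasses μ (fun p ω => ω p)) ∧
    SievingLimit banksFordTao ∧
    -- windows of length `k ≤ c log N`
    (∀ ε : ℝ, 0 < ε → ∃ c : ℝ, 0 < c ∧ ∀ (Ω : Type) [MeasurableSpace Ω] (μ : Measure Ω)
      [IsProbabilityMeasure μ] (A : ℕ → Ω → ℕ), RandomClasses μ A → ∀ z : ℕ → ℕ,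
      SievingLimit z → ∀ᵐ ω ∂μ, ∀ᶠ N : ℕ in atTop, ∀ k : ℕ, 1 ≤ k →
      (k : ℝ) ≤ c * Real.log N →
        -- each admissible pattern is the exact pattern of many windows, and no other one occurs
        (∀ S, Admissible k S → (N : ℝ) ^ (1 - ε) ≤
          ({x : ℕ | N ≤ x ∧ x ≤ 4 * N ∧ HasPattern (sieved z (fun p => A p ω)) k S x}.ncard : ℝ)) ∧
        (∀ x, N ≤ x → ∀ S, S ⊆ Ioc 0 k → HasPattern (sieved z (fun p => A p ω)) k S x →
          Admissible k S) ∧
        -- the maximal number of elements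
        (∀ x, N ≤ x → elements (sieved z (fun p => A p ω)) x k ≤ ⨆ m, h m k) ∧
        (N : ℝ) ^ (1 - ε) ≤ ({x : ℕ | N ≤ x ∧ x ≤ 4 * N ∧
          elements (sieved z (fun p => A p ω)) x k = ⨆ m, h m k}.ncard : ℝ)) ∧
    -- the analogue of Q1
    (∀ (Ω : Type) [MeasurableSpace Ω] (μ : Measure Ω) [IsProbabilityMeasure μ]
      (A : ℕ → Ω → ℕ), RandomClasses μ A → ∀ z : ℕ → ℕ, SievingLimit z →
      ∀ᵐ ω ∂μ, ∀ k : ℕ, 1 ≤ k →
        limsup (fun x : ℕ => elements (sieved z (fun p => A p ω)) x k) atTop = ⨆ m, h m k) ∧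
    -- the maximum is not attained in longer windows
    (∀ ε : ℝ, 0 < ε → ∀ (Ω : Type) [MeasurableSpace Ω] (μ : Measure Ω) [IsProbabilityMeasure μ]
      (A : ℕ → Ω → ℕ), RandomClasses μ A → ∀ z : ℕ → ℕ, SievingLimit z →
      ∀ᵐ ω ∂μ, ∀ᶠ x : ℕ in atTop, ∀ k : ℕ, (1 + ε) * Real.log x ≤ k →
        (k : ℝ) ≤ (x : ℝ) ^ (1 / 20 : ℝ) →
        elements (sieved z (fun p => A p ω)) x k < ⨆ m, h m k) := by
  have hR : ∀ {Ω : Type} [MeasurableSpace Ω] {μ : Measure Ω} {A : ℕ → Ω → ℕ},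
      RandomClasses μ A → Pool.Agent.H532.RM.RandomClasses μ A := fun h =>
    ⟨h.meas, h.indep, h.unif⟩
  simp only [max_h_eq]
  have key : ∀ ε : ℝ, 0 < ε → ∃ c : ℝ, 0 < c ∧ ∀ (Ω : Type) [MeasurableSpace Ω] (μ : Measure Ω)
      [IsProbabilityMeasure μ] (A : ℕ → Ω → ℕ), RandomClasses μ A → ∀ z : ℕ → ℕ,
      SievingLimit z → ∀ᵐ ω ∂μ, ∀ᶠ N : ℕ in atTop, ∀ k : ℕ, 1 ≤ k →
      (k : ℝ) ≤ c * Real.log N →
        (∀ S, Admissible k S → (N : ℝ) ^ (1 - ε) ≤
          ({x : ℕ | N ≤ x ∧ x ≤ 4 * N ∧ HasPattern (sieved z (fun p => A p ω)) k S x}.ncard : ℝ)) ∧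
        (∀ x, N ≤ x → ∀ S, S ⊆ Ioc 0 k → HasPattern (sieved z (fun p => A p ω)) k S x →
          Admissible k S) ∧
        (∀ x, N ≤ x → elements (sieved z (fun p => A p ω)) x k ≤
          Pool.Agent.H532.RM.smax k k) ∧
        (N : ℝ) ^ (1 - ε) ≤ ({x : ℕ | N ≤ x ∧ x ≤ 4 * N ∧
          elements (sieved z (fun p => A p ω)) x k =
            Pool.Agent.H532.RM.smax k k}.ncard : ℝ) := by
    intro ε hε
    obtain ⟨c, hc, hc1, hcc⟩ := Pool.Agent.H532.UN.patterns ε hε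
    refine ⟨c, hc, ?_⟩
    intro Ω _ μ _ A hA z hz
    filter_upwards [hcc (hR hA) z hz.mono hz.lim] with ω hω
    filter_upwards [hω, Pool.Agent.H532.UN.z_large z hz.mono hz.lim] with N hN hZ k hk hkN
    have hlog : 0 ≤ Real.log N := Real.log_natCast_nonneg N
    have hkN' : (k : ℝ) ≤ Real.log N := hkN.trans (by nlinarith)
    have hpat : ∀ S, Admissible k S → (N : ℝ) ^ (1 - ε) ≤
          ({x : ℕ | N ≤ x ∧ x ≤ 4 * N ∧
            HasPattern (sieved z (fun p => A p ω)) k S x}.ncard : ℝ) := by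
      intro S hS
      refine (hN k hk hkN S hS).trans ?_
      have hfin : {x : ℕ | N ≤ x ∧ x ≤ 4 * N ∧
          HasPattern (sieved z (fun p => A p ω)) k S x}.Finite :=
        (Set.finite_Icc N (4 * N)).subset fun x hx => ⟨hx.1, hx.2.1⟩
      have hsub : Pool.Agent.H532.UN.PatN (Pool.Agent.H532.RM.RB z (fun p => A p ω)) k S N ⊆
          {x : ℕ | N ≤ x ∧ x ≤ 4 * N ∧ HasPattern (sieved z (fun p => A p ω)) k S x} :=
        fun x hx => ⟨hx.1, by have := hx.2.1; omega, hx.2.2⟩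
      exact_mod_cast Set.ncard_le_ncard hsub hfin
    refine ⟨hpat, ?_, ?_, ?_⟩
    · intro x hx S hS hp
      exact Pool.Agent.H532.UN.pat_adm z hz.mono _ k x (hZ x hx k hkN') S hS
        fun i hi => (hp i (mem_Ioc.1 (hS hi)).1 (mem_Ioc.1 (hS hi)).2).2 hi
    · intro x hx
      exact Pool.Agent.H532.UN.cnt_le_smax z hz.mono _ k x (hZ x hx k hkN')
    · obtain ⟨S, hS, hSc⟩ := Pool.Agent.H532.UN.max_pattern k
      refine (hpat S hS).trans ?_
      have hfin : {x : ℕ | N ≤ x ∧ x ≤ 4 * N ∧ elements (sieved z (fun p => A p ω)) x k =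
          Pool.Agent.H532.RM.smax k k}.Finite :=
        (Set.finite_Icc N (4 * N)).subset fun x hx => ⟨hx.1, hx.2.1⟩
      have hsub : {x : ℕ | N ≤ x ∧ x ≤ 4 * N ∧ HasPattern (sieved z (fun p => A p ω)) k S x} ⊆
          {x : ℕ | N ≤ x ∧ x ≤ 4 * N ∧ elements (sieved z (fun p => A p ω)) x k =
          Pool.Agent.H532.RM.smax k k} := fun x hx => ⟨hx.1, hx.2.1, by
        rw [← hSc]
        exact Pool.Agent.H532.UN.cnt_of_pat _ hS.1 hx.2.2⟩
      exact_mod_cast Set.ncard_le_ncard hsub hfin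
  refine ⟨?_, ⟨Pool.Agent.H532.RM.zBFT_mono, Pool.Agent.H532.RM.zBFT_lim⟩, key, ?_, ?_⟩
  · obtain ⟨μ, h1, h2⟩ := Pool.Agent.H532.RM.exists_randomClasses
    exact ⟨μ, h1, ⟨h2.meas, h2.indep, h2.unif⟩⟩
  · intro Ω _ μ _ A hA z hz
    obtain ⟨c, hc, hcc⟩ := key (1 / 2) (by norm_num)
    filter_upwards [hcc Ω μ A hA z hz] with ω hω k hk
    have hlog : Tendsto (fun N : ℕ => c * Real.log N) atTop atTop :=
      (Real.tendsto_log_atTop.comp tendsto_natCast_atTop_atTop).const_mul_atTop hc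
    have h1 := hω.and (hlog.eventually_ge_atTop (k : ℝ))
    refine Pool.Agent.H532.UN.limsup_eq ?_ ?_
    · obtain ⟨N, hN⟩ := h1.exists
      filter_upwards [eventually_ge_atTop N] with x hx
      exact (hN.1 k hk hN.2).2.2.1 x hx
    · rw [frequently_atTop]
      intro B
      obtain ⟨N, ⟨hN, hkN⟩, hB, hN1⟩ :=
        (h1.and ((eventually_ge_atTop B).and (eventually_ge_atTop 1))).exists
      have h2 := (hN k hk hkN).2.2.2
      have h3 : 0 < {x : ℕ | N ≤ x ∧ x ≤ 4 * N ∧ elements (sieved z (fun p => A p ω)) x k =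
          Pool.Agent.H532.RM.smax k k}.ncard := by
        have : (0 : ℝ) < (N : ℝ) ^ (1 - (1 / 2) : ℝ) := by
          have : (0 : ℝ) < N := by exact_mod_cast hN1
          positivity
        exact_mod_cast lt_of_lt_of_le this h2
      obtain ⟨x, hx⟩ := (Set.ncard_pos ((Set.finite_Icc N (4 * N)).subset
        fun x hx => ⟨hx.1, hx.2.1⟩)).1 h3
      exact ⟨x, hB.trans hx.1, hx.2.2.ge⟩
  · intro ε hε Ω _ μ _ A hA z hz
    filter_upwards [Pool.Agent.H532.UN.strict ε hε (hR hA) z hz.mono hz.lim] with ω hω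
    filter_upwards [hω] with x hx k hk hkx
    refine hx k hk ?_
    have hx0 : (0 : ℝ) ≤ x := Nat.cast_nonneg x
    have h1 : (k : ℝ) ^ 20 ≤ ((x : ℝ) ^ (1 / 20 : ℝ)) ^ 20 := by gcongr
    have h2 : ((x : ℝ) ^ (1 / 20 : ℝ)) ^ 20 = x := by
      rw [← Real.rpow_natCast, ← Real.rpow_mul hx0]
      norm_num
    rw [h2] at h1
    exact_mod_cast h1

end Pool.Agent.Results.MP_cbf366_nt.MaximumInTheRandomSieve
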