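import Mathlib
import Pool.Agent.H616.TG.Dens

/-!
# One infinite pattern for the windows of all lengths, with many primes

The question is whether `ρ(k) = max_m h_m(k)` for every `k`: whether every admissible set of positions in
`(0, k]` is the set of the positions of the primes in windows `(n, n + k]`, for infinitely many `n`.

Let `A` be an infinite set of positive integers which misses a residue class modulo every prime. We find an
infinite subset `T` of `A` such that for EVERY length `k` the set `T ∩ [1, k]` is the exact set of the positions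
of the primes in the windows `(n, n + k]`, for many `n`, and such that `T` is large: for infinitely many `k`,
`|T ∩ [1, k]| ≥ log |A ∩ [1, k]| / ω(k)`, where `ω` is an arbitrary function which tends to infinity. For one
length, and not for nested windows, the number of the primes known to occur is `c log |A ∩ [1, k]|`.
-/

set_option autoImplicit false

namespace Pool.Agent.Results.MP_cbf366_nt.NestedWindows

open Finset Filter
open Pool.Agent.K1H86.PP (Seq Often)
open Pool.Agent.K1H86.TZ (Pr Out)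

/-- `A` misses a residue class modulo every prime -/
def Adm (A : Set ℕ) : Prop := ∀ p : ℕ, p.Prime → ∃ r : ℕ, ∀ a ∈ A, ¬ a ≡ r [MOD p]

open Classical in
/-- the number of the elements of `A` in `[1, k]` -/
noncomputable def cnt (A : Set ℕ) (k : ℕ) : ℕ := ((Icc 1 k).filter (fun a => a ∈ A)).card

/-- the number of the primes in the window `(n, n + k]` -/
def primes (n k : ℕ) : ℕ := ((Ioc n (n + k)).filter Nat.Prime).card

/-- the largest number of primes in windows `(n, n + k]` with arbitrarily large `n` -/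
noncomputable def rho (k : ℕ) : ℕ := sSup {r : ℕ | {n : ℕ | r ≤ primes n k}.Infinite}

/-- for every `k`, there are many windows `(n, n + k]` whose primes are exactly the `n + t`,
`t ∈ T ∩ [1, k]` -/
def Windows (T : Set ℕ) : Prop := ∀ k : ℕ, ∃ C : ℕ, ∃ᶠ x : ℝ in atTop, x / Real.log x ^ C ≤
  (Set.ncard {n : ℕ | (n : ℝ) ≤ x ∧ ∀ j, 1 ≤ j → j ≤ k → ((n + j).Prime ↔ j ∈ T)} : ℝ)

theorem le_rho {T : Set ℕ} (hT : Windows T) (k : ℕ) : cnt T k ≤ rho k := by
  classical
  obtain ⟨C, hC⟩ := hT k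
  have h1 : {n : ℕ | ∀ j, 1 ≤ j → j ≤ k → ((n + j).Prime ↔ j ∈ T)}.Infinite :=
    Often.infinite (C := C) hC
  have h2 : {n : ℕ | cnt T k ≤ primes n k}.Infinite := by
    refine h1.mono fun n hn => ?_
    have hn' : ∀ j, 1 ≤ j → j ≤ k → ((n + j).Prime ↔ j ∈ T) := hn
    show cnt T k ≤ primes n k
    unfold cnt primes
    refine card_le_card_of_injOn (fun j => n + j) ?_ (fun a _ b _ h => Nat.add_left_cancel h)
    intro j hj
    have hj' := mem_filter.1 (mem_coe.1 hj)
    have hj1 := mem_Icc.1 hj'.1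
    refine mem_coe.2 (mem_filter.2 ⟨mem_Ioc.2 ⟨?_, ?_⟩, ?_⟩)
    · show n < n + j
      omega
    · show n + j ≤ n + k
      omega
    · exact (hn' j hj1.1 hj1.2).2 hj'.2
  refine le_csSup ⟨k, ?_⟩ h2
  rintro r hr
  obtain ⟨n, hn⟩ := Set.Infinite.nonempty hr
  have hn' : r ≤ primes n k := hn
  refine hn'.trans ?_
  unfold primes
  refine (card_filter_le _ _).trans ?_
  rw [Nat.card_Ioc]
  omega

/-- the general theorem, with thresholds -/
theorem general (A : Set ℕ) (hA : A.Infinite) (hA0 : 0 ∉ A) (hadm : Adm A) (th : ℕ → ℕ) :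
    ∃ T ⊆ A, T.Infinite ∧ Windows T ∧
      ∀ i0, ∃ i, i0 ≤ i ∧ ∃ k, th i ≤ cnt A k ∧
        Real.log (cnt A k) ≤ 68 * 10 ^ 6 * (2 : ℝ) ^ (i + 1) * cnt T k := by
  classical
  obtain ⟨a, had⟩ : ∃ a : ℕ → ℕ, a = Nat.nth (fun n => n ∈ A) := ⟨_, rfl⟩
  have hA' : (Set.ofPred (fun n => n ∈ A)).Infinite := hA
  have ha : StrictMono a := by
    rw [had]
    exact Nat.nth_strictMono hA'
  have haA : ∀ t, a t ∈ A := by
    intro t
    rw [had]
    exact Nat.nth_mem_of_infinite hA' t
  have hsurj : ∀ j ∈ A, ∃ t, a t = j := by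
    intro j hj
    have h1 : j ∈ Set.range (Nat.nth (fun n => n ∈ A)) := by
      rw [Nat.range_nth_of_infinite hA']
      exact hj
    obtain ⟨t, ht⟩ := h1
    exact ⟨t, by rw [had]; exact ht⟩
  have hapos : ∀ t, 1 ≤ a t := by
    intro t
    rcases Nat.eq_zero_or_pos (a t) with h | h
    · exact absurd (h ▸ haA t) hA0
    · exact h
  set f : ℕ → ℤ × ℤ := fun t => ((1 : ℤ), (a t : ℤ)) with hfd
  have hf : Seq f :=
    { pos := fun t => one_pos
      prim := fun t => isCoprime_one_left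
      inj := fun s t hst => ha.injective (by exact_mod_cast (Prod.mk.inj hst).2) }
  have hloc : ∀ p : ℕ, p.Prime → ∃ n : ℕ, ∀ t, ¬ (p : ℤ) ∣ (f t).1 * n + (f t).2 := by
    intro p hp
    obtain ⟨r, hr⟩ := hadm p hp
    refine ⟨(p - 1) * r, fun t hd => hr (a t) (haA t) ?_⟩
    simp only [hfd, one_mul] at hd
    have h1 : p ∣ (p - 1) * r + a t := by exact_mod_cast hd
    have h2 : (p - 1) * r + r = p * r := by
      have := hp.one_le
      obtain ⟨q, rfl⟩ : ∃ q, p = q + 1 := ⟨p - 1, by omega⟩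
      simp only [Nat.add_sub_cancel]
      ring
    have h3 : (a t + ((p - 1) * r + r)) ≡ (r + ((p - 1) * r + a t)) [MOD p] := by
      have : a t + ((p - 1) * r + r) = r + ((p - 1) * r + a t) := by ring
      rw [this]
    have h4 : a t + ((p - 1) * r + r) ≡ a t [MOD p] := by
      rw [h2]
      show (a t + p * r) % p = a t % p
      rw [Nat.add_mul_mod_self_left]
    obtain ⟨q, hq⟩ := h1
    have h5 : r + ((p - 1) * r + a t) ≡ r [MOD p] := by
      rw [hq]
      show (r + p * q) % p = r % p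
      rw [Nat.add_mul_mod_self_left]
    exact (h4.symm.trans h3).trans h5
  obtain ⟨x, hxinf, hx1, hx2⟩ := Pool.Agent.H616.TG.dens hf hloc th
  have hTmem : ∀ t, a t ∈ a '' x ↔ t ∈ x := fun t => ha.injective.mem_set_image
  refine ⟨a '' x, ?_, hxinf.image ha.injective.injOn, fun k => ?_, fun i0 => ?_⟩
  · rintro _ ⟨t, _, rfl⟩
    exact haA t
  · -- the windows
    obtain ⟨C, hC⟩ := hx1 (k + 1) (((Icc 1 k).filter (fun j => j ∉ A)).image (fun j : ℕ => ((1 : ℤ), (j : ℤ))))
      (by
        intro r hr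
        obtain ⟨j, hj, rfl⟩ := mem_image.1 hr
        refine ⟨one_pos, isCoprime_one_left, fun t ht => ?_⟩
        have h1 : (j : ℤ) = (a t : ℤ) := (Prod.mk.inj ht).2
        have h2 : j = a t := by exact_mod_cast h1
        exact (mem_filter.1 hj).2 (h2 ▸ haA t))
    refine ⟨C, hC.mono fun n hn j hj1 hjk => ?_⟩
    have hPr : ∀ m : ℕ, Pr ((1 : ℤ), (m : ℤ)) n ↔ (n + m).Prime := by
      intro m
      unfold Pr
      have : ((1 : ℤ) * (n : ℤ) + (m : ℤ)).natAbs = n + m := by
        rw [one_mul]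
        exact_mod_cast Int.natAbs_natCast (n + m)
      rw [this]
    by_cases hjA : j ∈ A
    · obtain ⟨t, rfl⟩ := hsurj j hjA
      have h1 : t ≤ a t := ha.le_apply
      have h2 := hn.1 t (by omega)
      rw [hTmem, ← h2]
      exact (hPr (a t)).symm
    · have h1 := hn.2 ((1 : ℤ), (j : ℤ)) (mem_image_of_mem _ (mem_filter.2 ⟨mem_Icc.2 ⟨hj1, hjk⟩, hjA⟩))
      rw [hPr] at h1
      constructor
      · exact fun h => absurd h h1
      · rintro ⟨t, _, rfl⟩
        exact absurd (haA t) hjA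
  · obtain ⟨i, hi, N, hN, h⟩ := hx2 i0
    -- the elements of `A` below `a N`
    have hcount : ∀ (S : Set ℕ), cnt (a '' S) (a N - 1) = ((range N).filter (fun t => t ∈ S)).card := by
      intro S
      unfold cnt
      symm
      refine card_bij (fun t _ => a t) ?_ (fun s _ t _ h => ha.injective h) ?_
      · intro t ht
        rw [mem_filter, mem_range] at ht
        rw [mem_filter, mem_Icc]
        have h1 := hapos t
        have h2 := ha ht.1
        exact ⟨⟨h1, by omega⟩, t, ht.2, rfl⟩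
      · intro j hj
        rw [mem_filter, mem_Icc] at hj
        obtain ⟨⟨h1, h2⟩, t, ht, rfl⟩ := hj
        have h3 : a t < a N := by omega
        exact ⟨t, mem_filter.2 ⟨mem_range.2 (ha.lt_iff_lt.1 h3), ht⟩, rfl⟩
    have hcA : cnt A (a N - 1) = N := by
      have h1 : A = a '' Set.univ := by
        ext j
        constructor
        · intro hj
          obtain ⟨t, ht⟩ := hsurj j hj
          exact ⟨t, Set.mem_univ _, ht⟩
        · rintro ⟨t, _, rfl⟩
          exact haA t
      have h2 := hcount Set.univ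
      rw [← h1] at h2
      rw [h2]
      simp
    refine ⟨i, hi, a N - 1, by rw [hcA]; exact hN, ?_⟩
    rw [hcA, hcount x]
    exact h ((range N).filter (fun t => t ∈ x)) (fun t => by rw [mem_filter, mem_range])

/-- the set of the positive even squares -/
def ESq : Set ℕ := {a | ∃ m : ℕ, 1 ≤ m ∧ a = (2 * m) ^ 2}

theorem ESq_adm : Adm ESq := by
  intro p hp
  rcases hp.eq_two_or_odd with h2 | h2
  · refine ⟨1, ?_⟩
    rintro _ ⟨m, _, rfl⟩ h
    rw [h2] at h
    have h3 : ((2 * m) ^ 2) % 2 = 1 % 2 := h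
    have h4 : ((2 * m) ^ 2) % 2 = 0 := by
      rw [pow_two]
      have : 2 * m * (2 * m) = 2 * (m * (2 * m)) := by ring
      rw [this]
      exact Nat.mul_mod_right _ _
    omega
  · have : Fact p.Prime := ⟨hp⟩
    obtain ⟨r, hr⟩ := FiniteField.exists_nonsquare (F := ZMod p) (by
      rw [ZMod.ringChar_zmod_n]
      intro h
      omega)
    refine ⟨r.val, ?_⟩
    rintro _ ⟨m, _, rfl⟩ h
    apply hr
    have h3 := (ZMod.natCast_eq_natCast_iff _ _ _).2 h
    rw [ZMod.natCast_zmod_val] at h3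
    refine ⟨((2 * m : ℕ) : ZMod p), ?_⟩
    rw [← h3]
    push_cast
    ring

theorem ESq_inf : ESq.Infinite := by
  refine Set.infinite_of_injective_forall_mem (f := fun m : ℕ => (2 * (m + 1)) ^ 2) ?_ ?_
  · intro m n h
    have h1 : (2 * (m + 1)) ^ 2 = (2 * (n + 1)) ^ 2 := h
    have h2 := Nat.pow_left_injective (n := 2) (by norm_num) h1
    omega
  · intro m
    exact ⟨m + 1, by omega, rfl⟩

/-- the number of the even squares -/
theorem ESq_cnt (k : ℕ) (hk : 64 ≤ k) : (k : ℝ) ≤ (cnt ESq k : ℝ) ^ 4 := by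
  classical
  obtain ⟨q, hq⟩ : ∃ q, q = Nat.sqrt k := ⟨_, rfl⟩
  have h1 : q * q ≤ k := by rw [hq]; exact Nat.sqrt_le k
  have h2 : k < (q + 1) * (q + 1) := by rw [hq]; exact Nat.lt_succ_sqrt k
  have hq8 : 8 ≤ q := by
    by_contra hcon
    push Not at hcon
    have : (q + 1) * (q + 1) ≤ 8 * 8 := Nat.mul_le_mul (by omega) (by omega)
    omega
  have h3 : q / 2 ≤ cnt ESq k := by
    unfold cnt
    have h4 : (Icc 1 (q / 2)).card = q / 2 := by rw [Nat.card_Icc]; omega
    rw [← h4]
    refine card_le_card_of_injOn (fun m => (2 * m) ^ 2) ?_ ?_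
    · intro m hm
      have hm' := mem_Icc.1 (mem_coe.1 hm)
      refine mem_coe.2 (mem_filter.2 ⟨mem_Icc.2 ⟨?_, ?_⟩, m, hm'.1, rfl⟩)
      · exact Nat.one_le_iff_ne_zero.2 (pow_ne_zero 2 (by omega))
      · show (2 * m) ^ 2 ≤ k
        rw [pow_two]
        have h5 : 2 * m ≤ q := by omega
        exact (Nat.mul_le_mul h5 h5).trans h1
    · intro m _ n _ h
      have h5 : (2 * m) ^ 2 = (2 * n) ^ 2 := h
      have h6 := Nat.pow_left_injective (n := 2) (by norm_num) h5
      omega
  have h4 : (q : ℝ) ≤ 2 * cnt ESq k + 1 := by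
    have h5 : q ≤ 2 * cnt ESq k + 1 := by omega
    exact_mod_cast h5
  have h5 : (k : ℝ) ≤ ((q : ℝ) + 1) ^ 2 := by
    have h6 : ((k : ℕ) : ℝ) ≤ (((q + 1) * (q + 1) : ℕ) : ℝ) := by exact_mod_cast h2.le
    push_cast at h6
    nlinarith
  have hq8' : (8 : ℝ) ≤ q := by exact_mod_cast hq8
  obtain ⟨y, hy⟩ : ∃ y : ℝ, y = cnt ESq k := ⟨_, rfl⟩
  rw [← hy] at h4 ⊢
  have hy1 : (7 / 2 : ℝ) ≤ y := by linarith
  have h6 : ((q : ℝ) + 1) ^ 2 ≤ (2 * y + 2) ^ 2 := by
    apply pow_le_pow_left₀ (by positivity)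
    linarith
  have h7 : (2 * y + 2) ≤ y ^ 2 := by nlinarith
  have h8 : (2 * y + 2) ^ 2 ≤ (y ^ 2) ^ 2 := pow_le_pow_left₀ (by linarith) h7 2
  have h9 : (y ^ 2) ^ 2 = y ^ 4 := by ring
  linarith

theorem cnt_le (A : Set ℕ) (k : ℕ) : cnt A k ≤ k := by
  classical
  unfold cnt
  refine (card_filter_le _ _).trans ?_
  rw [Nat.card_Icc]
  omega

/-- Let `ω` be a function which tends to infinity.

(1) Let `A` be an infinite set of positive integers which misses a residue class modulo every prime. There is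
an infinite subset `T` of `A` such that, for every `k`, `T ∩ [1, k]` is the set of the positions of the primes
in at least `x / (log x) ^ C` windows `(n, n + k]`, `n ≤ x`, for arbitrarily large `x`; in particular
`|T ∩ [1, k]| ≤ ρ(k)` for all `k`; and `|T ∩ [1, k]| ≥ log |A ∩ [1, k]| / ω(k)` for infinitely many `k`.

(2) There is an infinite set `T` of even squares with this property of the windows, and with
`|T ∩ [1, k]| ≥ log k / ω(k)` for infinitely many `k`. -/
theorem result (ω : ℕ → ℝ) (hω : Tendsto ω atTop atTop) :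
    (∀ A : Set ℕ, A.Infinite → 0 ∉ A → Adm A → ∃ T ⊆ A, T.Infinite ∧ Windows T ∧
      (∀ k, cnt T k ≤ rho k) ∧ ∃ᶠ k : ℕ in atTop, Real.log (cnt A k) ≤ ω k * cnt T k) ∧
    ∃ T : Set ℕ, T.Infinite ∧ (∀ t ∈ T, ∃ m : ℕ, t = (2 * m) ^ 2) ∧ Windows T ∧
      (∀ k, cnt T k ≤ rho k) ∧ ∃ᶠ k : ℕ in atTop, Real.log k ≤ ω k * cnt T k := by
  have hth : ∀ i : ℕ, ∃ N0 : ℕ, ∀ n, N0 ≤ n → 4 * (68 * 10 ^ 6 * (2 : ℝ) ^ (i + 1)) ≤ ω n := fun i =>
    eventually_atTop.1 (hω.eventually_ge_atTop _)
  choose th hth using hth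
  constructor
  · intro A hA hA0 hadm
    obtain ⟨T, hTA, hT, hW, hg⟩ := general A hA hA0 hadm (fun i => max i (th i))
    refine ⟨T, hTA, hT, hW, le_rho hW, ?_⟩
    rw [frequently_atTop]
    intro k0
    obtain ⟨i, hi, k, hk, h⟩ := hg k0
    have h1 := cnt_le A k
    have h2 : i ≤ max i (th i) := le_max_left _ _
    have h3 : th i ≤ max i (th i) := le_max_right _ _
    have hk' : max i (th i) ≤ cnt A k := hk
    refine ⟨k, by omega, h.trans ?_⟩
    apply mul_le_mul_of_nonneg_right _ (Nat.cast_nonneg _)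
    have h4 := hth i k (by omega)
    have h5 : (0 : ℝ) ≤ 68 * 10 ^ 6 * (2 : ℝ) ^ (i + 1) := by positivity
    linarith
  · obtain ⟨T, hTA, hT, hW, hg⟩ := general ESq ESq_inf (by
      rintro ⟨m, hm, h⟩
      have h1 : (2 * m) ^ 2 ≠ 0 := pow_ne_zero 2 (by omega)
      exact h1 h.symm) ESq_adm (fun i => max (i + 64) (th i))
    refine ⟨T, hT, fun t ht => ?_, hW, le_rho hW, ?_⟩
    · obtain ⟨m, _, h⟩ := hTA ht
      exact ⟨m, h⟩
    rw [frequently_atTop]
    intro k0
    obtain ⟨i, hi, k, hk, h⟩ := hg k0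
    have h1 := cnt_le ESq k
    have h2 : i + 64 ≤ max (i + 64) (th i) := le_max_left _ _
    have h3 : th i ≤ max (i + 64) (th i) := le_max_right _ _
    have hk' : max (i + 64) (th i) ≤ cnt ESq k := hk
    refine ⟨k, by omega, ?_⟩
    have h4 := hth i k (by omega)
    have h5 := ESq_cnt k (by omega)
    have hk0 : (0 : ℝ) < k := by exact_mod_cast (by omega : 0 < k)
    have h6 := Real.log_le_log hk0 h5
    rw [Real.log_pow] at h6
    push_cast at h6
    calc Real.log k ≤ 4 * Real.log (cnt ESq k) := h6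
      _ ≤ 4 * (68 * 10 ^ 6 * (2 : ℝ) ^ (i + 1) * cnt T k) := by linarith
      _ = 4 * (68 * 10 ^ 6 * (2 : ℝ) ^ (i + 1)) * cnt T k := by ring
      _ ≤ ω k * cnt T k := mul_le_mul_of_nonneg_right h4 (Nat.cast_nonneg _)

end Pool.Agent.Results.MP_cbf366_nt.NestedWindows
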