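import Mathlib
import Pool.Agent.H522.ClassSpread
import Pool.Agent.H522.ShatterRandom

/-! # The primes in random parts of the sieve windows

Let `V_j(k)` be the set of the positions `1 ≤ i ≤ k` for which `j + i` has no prime factor `≤ k`, so that `h_j(k)` is
the number of its elements. The window `(x, x + k]` with `x ≡ j` modulo all primes `≤ k` can have primes only at the
positions in `V_j(k)`, and the question is whether, for the best `j`, all of them are prime infinitely often. The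
theorem of Maynard and Tao gives windows with about `(log h_j(k)) / 4` primes, and for an arbitrary set `W` of
positions in `V_j(k)` windows with about `(log |W|) / 4` primes at positions in `W`. We show that almost all sets `W` of `t` positions are much
better as long as `t ≤ c (log h_j(k)) ^ 2`: they contain `c √t` positions which are the exact positions of the primes of
windows `(x, x + k]`, even with no other prime within distance `R` of `x`. -/

set_option autoImplicit false

open Filter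

namespace Pool.Agent.Results.MP_cbf366_nt.RandomPartsOfSieveWindows

/-- the positions `1 ≤ i ≤ k` such that no prime `≤ k` divides `j + i`; their number is `h_j(k)` -/
noncomputable def positions (j k : ℕ) : Finset ℤ :=
  (Finset.Icc (1 : ℤ) k).filter (fun i => ∀ p ≤ k, p.Prime → ¬ (p : ℤ) ∣ j + i)

/-- `B` is, for `x ≡ j` modulo all primes `≤ k`, often the exact set of the positions of the primes near `x`: for all
`R` and `ε > 0` there are arbitrarily large `X` such that for at least `X ^ (1 - ε)` of the integers `0 ≤ x ≤ X` we have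
`x ≡ j` modulo all primes `≤ k`, and the primes in `[x - R, x + R]` are exactly the numbers `x + b`, `b ∈ B` -/
def Occurs (j k : ℕ) (B : Finset ℤ) : Prop := ∀ (R : ℕ) (ε : ℝ), 0 < ε → ∃ᶠ X : ℝ in atTop,
  X ^ (1 - ε) ≤ (Set.ncard {x : ℕ | (x : ℝ) ≤ X ∧ (∀ p ≤ k, p.Prime → x ≡ j [MOD p]) ∧
    ∀ y : ℤ, |y| ≤ R → ((∃ p : ℕ, p.Prime ∧ (p : ℤ) = x + y) ↔ y ∈ B)} : ℝ)

/-- `D` is independent in `W`: `D ⊆ W`, and every `E ⊆ D` is `B ∩ D` for some `B ⊆ W` which occurs -/
def Independent (j k : ℕ) (W D : Finset ℤ) : Prop :=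
  D ⊆ W ∧ ∀ E, E ⊆ D → ∃ B : Finset ℤ, B ⊆ W ∧ Occurs j k B ∧ B ∩ D = E

theorem occurs_of {j k : ℕ} {B : Finset ℤ} (h : Pool.Agent.H522.IsoIn (primorial k) j B) : Occurs j k B := by
  intro R ε hε
  refine (h R ε hε).mono fun X hX => hX.trans ?_
  have h1 : Pool.Agent.Y826.ZC.Pat (primorial k) j B R X ⊆
      {x : ℕ | (x : ℝ) ≤ X ∧ (∀ p ≤ k, p.Prime → x ≡ j [MOD p]) ∧
        ∀ y : ℤ, |y| ≤ R → ((∃ p : ℕ, p.Prime ∧ (p : ℤ) = x + y) ↔ y ∈ B)} := by
    rintro x ⟨h2, h3, h4⟩
    refine ⟨h2, fun p hp hpp => ?_, h4⟩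
    have h5 : p ∣ primorial k := by
      unfold primorial
      exact Finset.dvd_prod_of_mem _ (by simp [hpp]; omega)
    have h6 : (x : ℤ) ≡ (j : ℤ) [ZMOD p] := h3.of_dvd (by exact_mod_cast h5)
    exact (Int.natCast_modEq_iff).1 h6
  have h2 : {x : ℕ | (x : ℝ) ≤ X ∧ (∀ p ≤ k, p.Prime → x ≡ j [MOD p]) ∧
        ∀ y : ℤ, |y| ≤ R → ((∃ p : ℕ, p.Prime ∧ (p : ℤ) = x + y) ↔ y ∈ B)}.Finite := by
    apply (Set.finite_Iic ⌊X⌋₊).subset
    rintro x ⟨hx, -⟩
    exact Nat.le_floor hx
  exact_mod_cast Set.ncard_le_ncard h1 h2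

theorem ok_positions (j k : ℕ) : Pool.Agent.H522.OkC (primorial k) j (positions j k) := by
  refine ⟨fun p hp => ?_, fun s hs => ?_⟩
  · by_cases hpk : p ≤ k
    · refine ⟨j, fun s hs => ?_⟩
      rw [positions, Finset.mem_filter] at hs
      exact hs.2 p hpk hp
    · apply Pool.Agent.H522.adm_of_card _ p hp
      have h1 : (positions j k).card ≤ (Finset.Icc (1 : ℤ) k).card := Finset.card_filter_le _ _
      rw [Int.card_Icc] at h1
      omega
  · rw [positions, Finset.mem_filter] at hs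
    rw [Int.isCoprime_iff_nat_coprime]
    show Nat.Coprime _ _
    rw [Int.natAbs_natCast, Nat.coprime_comm]
    unfold primorial
    rw [Nat.coprime_prod_left_iff]
    intro p hp
    rw [Finset.mem_filter, Finset.mem_range] at hp
    rw [Nat.Prime.coprime_iff_not_dvd hp.2]
    intro hd
    apply hs.2 p (by omega) hp.2
    rw [← Int.natAbs_dvd_natAbs, Int.natAbs_natCast]
    exact hd

open Classical in
theorem result (δ : ℝ) (hδ : 0 < δ) : ∃ C : ℕ, 1 ≤ C ∧ ∀ m j k : ℕ, 1 ≤ m →
    (4 + δ) * m + C ≤ Real.log (positions j k).card →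
    -- (1) the number of the independent sets of positions
    (((positions j k).card : ℝ) / (C * (m : ℝ) ^ 2)) ^ m ≤
      (Set.ncard {D : Finset ℤ | m ≤ D.card ∧ Independent j k (positions j k) D} : ℝ) ∧
    ∀ t : ℕ, t ≤ (positions j k).card →
      -- (2) few sets of `t` positions contain no exact set of at least `m` positions of primes
      (Set.ncard {W : Finset ℤ | W ⊆ positions j k ∧ W.card = t ∧
          ¬ ∃ B : Finset ℤ, B ⊆ W ∧ m ≤ B.card ∧ Occurs j k B} : ℝ) ≤
        2 * Real.exp (-(t / (C * (m : ℝ) ^ 2))) * ((positions j k).card.choose t : ℝ) ∧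
      -- (3) few sets of `t ≥ C m ^ C` positions contain no independent set of `m` positions
      (C * m ^ C ≤ t →
        (Set.ncard {W : Finset ℤ | W ⊆ positions j k ∧ W.card = t ∧
            ¬ ∃ D : Finset ℤ, D.card = m ∧ Independent j k W D} : ℝ) ≤
          Real.exp (-(t : ℝ) ^ (1 / (C : ℝ))) * ((positions j k).card.choose t : ℝ)) := by
  obtain ⟨C1, hC1, h⟩ := Pool.Agent.H522.almost_all_deltaG δ hδ
  obtain ⟨C2, hC2, h2⟩ := Pool.Agent.H522.shat_main δ hδ
  obtain ⟨C, hC⟩ : ∃ C : ℕ, C = ⌈C1⌉₊ + C2 := ⟨_, rfl⟩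
  have hC1C : C1 ≤ C := by
    rw [hC]; push_cast
    have := Nat.le_ceil C1
    have h3 : (0 : ℝ) ≤ C2 := Nat.cast_nonneg _
    linarith
  have hC2C : C2 ≤ C := by omega
  have hC2C' : (C2 : ℝ) ≤ C := by exact_mod_cast hC2C
  have hC2r : (0 : ℝ) < C2 := by exact_mod_cast hC2
  refine ⟨C, by omega, fun m j k hm hV => ?_⟩
  have hm' : (1 : ℝ) ≤ m := by exact_mod_cast hm
  have hsp := Pool.Agent.H522.hasSM_C (primorial k) (primorial_pos k) j
  have hok := ok_positions j k
  obtain ⟨V, hVdef⟩ : ∃ V, V = positions j k := ⟨_, rfl⟩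
  rw [← hVdef] at hV hok ⊢
  have hindep : ∀ W D, Pool.Agent.H522.ShatIn (Pool.Agent.H522.IsoIn (primorial k) j) W D → Independent j k W D := by
    rintro W D ⟨h3, h4⟩
    refine ⟨h3, fun E hE => ?_⟩
    obtain ⟨B, h5, h6, h7⟩ := h4 E hE
    exact ⟨B, h5, occurs_of h6, h7⟩
  refine ⟨?_, fun t ht => ⟨?_, ?_⟩⟩
  · have h1 := (h2 ℤ _ _ hsp m V hm hok (by linarith)).1
    refine le_trans ?_ (h1.trans ?_)
    · apply pow_le_pow_left₀ (by positivity)
      apply div_le_div_of_nonneg_left (Nat.cast_nonneg _) (by positivity)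
      exact mul_le_mul_of_nonneg_right hC2C' (by positivity)
    · rw [← Set.ncard_coe_finset]
      have hfin : {D : Finset ℤ | m ≤ D.card ∧ Independent j k V D}.Finite := by
        apply (Finset.finite_toSet V.powerset).subset
        rintro D ⟨-, h3, -⟩
        exact Finset.mem_coe.2 (Finset.mem_powerset.2 h3)
      have hsub : ((V.powerset.filter (fun D => m ≤ D.card ∧
          Pool.Agent.H522.ShatIn (Pool.Agent.H522.IsoIn (primorial k) j) V D) : Finset (Finset ℤ)) :
            Set (Finset ℤ)) ⊆ {D : Finset ℤ | m ≤ D.card ∧ Independent j k V D} := by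
        intro D hD
        rw [Finset.coe_filter] at hD
        exact ⟨hD.2.1, hindep _ _ hD.2.2⟩
      exact_mod_cast Set.ncard_le_ncard hsub hfin
  · have h1 := h ℤ _ _ hsp m V hm hok (by linarith) t ht
    have hsub : {W : Finset ℤ | W ⊆ V ∧ W.card = t ∧ ¬ ∃ B : Finset ℤ, B ⊆ W ∧ m ≤ B.card ∧ Occurs j k B} ⊆
        (((V.powersetCard t).filter (Pool.Agent.H522.BadG (Pool.Agent.H522.IsoIn (primorial k) j) m) :
          Finset (Finset ℤ)) : Set (Finset ℤ)) := by
      rintro W ⟨h3, h4, h5⟩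
      rw [Finset.coe_filter]
      refine ⟨Finset.mem_powersetCard.2 ⟨h3, h4⟩, ?_⟩
      rintro ⟨B, h6, h7, h8⟩
      exact h5 ⟨B, h6, h7, occurs_of h8⟩
    have h3 := Set.ncard_le_ncard hsub (Finset.finite_toSet _)
    rw [Set.ncard_coe_finset] at h3
    refine (Nat.cast_le.2 h3).trans (h1.trans ?_)
    apply mul_le_mul_of_nonneg_right _ (Nat.cast_nonneg _)
    apply mul_le_mul_of_nonneg_left _ (by norm_num)
    apply Real.exp_le_exp.2
    apply neg_le_neg
    apply div_le_div_of_nonneg_left (Nat.cast_nonneg _) (by positivity)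
    exact mul_le_mul_of_nonneg_right hC1C (by positivity)
  · intro hkt
    have hkt' : C2 * m ^ C2 ≤ t := by
      refine le_trans ?_ hkt
      exact Nat.mul_le_mul hC2C (Nat.pow_le_pow_right hm hC2C)
    have h4 := (h2 ℤ _ _ hsp m V hm hok (by linarith)).2 t ht hkt'
    have hsub : {W : Finset ℤ | W ⊆ V ∧ W.card = t ∧ ¬ ∃ D : Finset ℤ, D.card = m ∧ Independent j k W D} ⊆
        (((V.powersetCard t).filter (fun W => ¬ ∃ D, D.card = m ∧
          Pool.Agent.H522.ShatIn (Pool.Agent.H522.IsoIn (primorial k) j) W D) : Finset (Finset ℤ)) :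
            Set (Finset ℤ)) := by
      rintro W ⟨h3, h5, h6⟩
      rw [Finset.coe_filter]
      refine ⟨Finset.mem_powersetCard.2 ⟨h3, h5⟩, ?_⟩
      rintro ⟨D, h7, h8⟩
      exact h6 ⟨D, h7, hindep _ _ h8⟩
    have h3 := Set.ncard_le_ncard hsub (Finset.finite_toSet _)
    rw [Set.ncard_coe_finset] at h3
    refine (Nat.cast_le.2 h3).trans (h4.trans ?_)
    apply mul_le_mul_of_nonneg_right _ (Nat.cast_nonneg _)
    apply Real.exp_le_exp.2
    apply neg_le_neg
    have ht1 : (1 : ℝ) ≤ t := by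
      have h5 : 1 ≤ C2 * m ^ C2 := Nat.mul_pos hC2 (Nat.pow_pos hm)
      exact_mod_cast h5.trans hkt'
    apply Real.rpow_le_rpow_of_exponent_le ht1
    exact one_div_le_one_div_of_le hC2r hC2C'

end Pool.Agent.Results.MP_cbf366_nt.RandomPartsOfSieveWindows
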